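import Pool.Agent.X99.GQ.Ns
import Pool.Agent.Y302.CQ.LowA

/-!
The lower bound for the size of the class (after `Pool.Agent.Y302.CQ.LOW` of helper302).
-/

set_option autoImplicit false

open scoped Classical

namespace Pool.Agent.X99.GQ.Lo

open Finset
open Pool.Agent.X99.GQ
open Pool.Agent.Y302.CQ (M1 P2 G1_lower)

variable {P : Par} {F : Finset ℕ}

/-- the class without the primes of `F` -/
def cls (P : Par) (F : Finset ℕ) (p : ℕ) : Prop := (Sp P p ∨ In P p) ∧ p ∉ F

/-- the residues outside the class -/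
noncomputable def Res (P : Par) : Finset ℕ :=
  ((range P.N).filter fun a => Nat.Coprime P.N a) \ (P.A ∪ P.B)

theorem tot_pos (hO : Ok P) : (0 : ℝ) < (Nat.totient P.N : ℝ) := by
  exact_mod_cast Nat.totient_pos.2 hO.pos

theorem card_Res (hO : Ok P) :
    ((Res P).card : ℝ) / (Nat.totient P.N : ℝ) = 1 - (al P + be P) := by
  have hsub : P.A ∪ P.B ⊆ (range P.N).filter fun a => Nat.Coprime P.N a := by
    intro a ha
    rw [mem_filter, mem_range]
    exact ⟨(hO.cop a ha).1, (hO.cop a ha).2.symm⟩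
  have h1 : (Res P).card = Nat.totient P.N - (P.A.card + P.B.card) := by
    unfold Res
    rw [card_sdiff_of_subset hsub, card_union_of_disjoint hO.disj, Nat.totient_eq_card_coprime]
  have h2 : P.A.card + P.B.card ≤ Nat.totient P.N := by
    have := card_le_card hsub
    rw [card_union_of_disjoint hO.disj] at this
    rw [Nat.totient_eq_card_coprime]
    exact this
  have h3 := tot_pos hO
  rw [h1, Nat.cast_sub h2]
  unfold al be
  push_cast
  field_simp

theorem dl_le (hO : Ok P) : al P + be P ≤ 1 := by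
  have h1 := card_Res hO
  have h2 := tot_pos hO
  have h3 : (0 : ℝ) ≤ ((Res P).card : ℝ) / (Nat.totient P.N : ℝ) := by positivity
  linarith

theorem al_pos (hO : Ok P) : 0 < al P := by
  have h2 := tot_pos hO
  have h3 : (0 : ℝ) < (P.A.card : ℝ) := by exact_mod_cast card_pos.2 hO.neA
  unfold al
  positivity

theorem be_pos (hO : Ok P) : 0 < be P := by
  have h2 := tot_pos hO
  have h3 : (0 : ℝ) < (P.B.card : ℝ) := by exact_mod_cast card_pos.2 hO.neB
  unfold be
  positivity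

/-- Mertens' theorem for the primes outside the class. -/
theorem mert (hO : Ok P) (F : Finset ℕ) : ∃ C : ℝ, ∀ y : ℕ, 3 ≤ y →
    ∑ p ∈ P2 (cls P F) y, (1 : ℝ) / p ≤ (1 - (al P + be P)) * Real.log (Real.log y) + C := by
  have hM' : ∀ a : ℕ, ∃ C : ℝ, a < P.N → Nat.Coprime a P.N → ∀ y : ℕ, 3 ≤ y →
      |∑ p ∈ (range (y + 1)).filter (fun p => p.Prime ∧ p % P.N = a), (1 : ℝ) / p -
        1 / (Nat.totient P.N : ℝ) * Real.log (Real.log y)| ≤ C := by
    intro a
    by_cases ha : a < P.N ∧ Nat.Coprime a P.N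
    · obtain ⟨C, hC⟩ := t_MER hO a ha.1 ha.2
      exact ⟨C, fun _ _ => hC⟩
    · exact ⟨0, fun h h' => absurd ⟨h, h'⟩ ha⟩
  choose C hC using hM'
  set E : Finset ℕ := P.N.primeFactors ∪ F with hE
  refine ⟨∑ p ∈ E, (1 : ℝ) / p + ∑ a ∈ Res P, C a, ?_⟩
  intro y hy
  have h1 := Finset.sum_filter_add_sum_filter_not (P2 (cls P F) y)
    (fun p => p ∈ E) (fun p => (1 : ℝ) / p)
  have h2 : ∑ p ∈ (P2 (cls P F) y).filter (fun p => p ∈ E), (1 : ℝ) / p ≤
      ∑ p ∈ E, (1 : ℝ) / p := by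
    apply Finset.sum_le_sum_of_subset_of_nonneg
    · intro p hp
      exact (mem_filter.mp hp).2
    · intro p _ _
      positivity
  have hmaps : ∀ p ∈ (P2 (cls P F) y).filter (fun p => ¬ p ∈ E), p % P.N ∈ Res P := by
    intro p hp
    rw [mem_filter, P2, mem_filter] at hp
    obtain ⟨⟨_, hpp, hpc⟩, hp4⟩ := hp
    rw [hE, mem_union, not_or] at hp4
    have hpN : Nat.Coprime P.N p := by
      rw [Nat.coprime_comm, Nat.Prime.coprime_iff_not_dvd hpp]
      intro h
      exact hp4.1 (Nat.mem_primeFactors.2 ⟨hpp, h, hO.pos.ne'⟩)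
    unfold Res
    rw [mem_sdiff, mem_filter, mem_range]
    refine ⟨⟨Nat.mod_lt _ hO.pos, ?_⟩, ?_⟩
    · have h4 : Nat.gcd P.N p = Nat.gcd (p % P.N) P.N := Nat.gcd_rec P.N p
      unfold Nat.Coprime at hpN ⊢
      rw [Nat.gcd_comm, ← h4]
      exact hpN
    · intro h
      apply hpc
      refine ⟨?_, hp4.2⟩
      rcases mem_union.1 h with h | h
      · exact Or.inl ⟨hpp, h⟩
      · exact Or.inr ⟨hpp, h⟩
  have h3 : ∑ p ∈ (P2 (cls P F) y).filter (fun p => ¬ p ∈ E), (1 : ℝ) / p ≤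
      ∑ a ∈ Res P, (1 / (Nat.totient P.N : ℝ) * Real.log (Real.log y) + C a) := by
    rw [← Finset.sum_fiberwise_of_maps_to hmaps]
    apply Finset.sum_le_sum
    intro a ha
    unfold Res at ha
    rw [mem_sdiff, mem_filter, mem_range] at ha
    have h4 := (abs_le.mp (hC a ha.1.1 ha.1.2.symm y hy)).2
    have h5 : ∑ p ∈ ((P2 (cls P F) y).filter (fun p => ¬ p ∈ E)).filter
        (fun p => p % P.N = a), (1 : ℝ) / p ≤
        ∑ p ∈ (range (y + 1)).filter (fun p => p.Prime ∧ p % P.N = a), (1 : ℝ) / p := by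
      apply Finset.sum_le_sum_of_subset_of_nonneg
      · intro p hp
        rw [mem_filter, mem_filter, P2, mem_filter] at hp
        rw [mem_filter]
        exact ⟨hp.1.1.1, hp.1.1.2.1, hp.2⟩
      · intro p _ _
        positivity
    linarith
  rw [← h1]
  have h4 : ∑ a ∈ Res P, (1 / (Nat.totient P.N : ℝ) * Real.log (Real.log y) + C a) =
      (1 - (al P + be P)) * Real.log (Real.log y) + ∑ a ∈ Res P, C a := by
    rw [Finset.sum_add_distrib, Finset.sum_const, nsmul_eq_mul, ← card_Res hO]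
    ring
  rw [h4] at h3
  linarith

theorem mem_M1 {y : ℕ} {S : Finset ℕ} (h : S ∈ M1 (cls P F) y) :
    (∀ p ∈ S, p.Prime ∧ cls P F p ∧ p ≤ y) ∧ ∏ p ∈ S, p ≤ y := by
  rw [M1, mem_filter, mem_powerset] at h
  refine ⟨fun p hp => ?_, h.2⟩
  have := h.1 hp
  rw [mem_filter, mem_range] at this
  exact ⟨this.2.1, this.2.2, by omega⟩

theorem pr {p : ℕ} (h : Sp P p ∨ In P p) : p.Prime := by
  rcases h with h | h
  · exact h.1
  · exact h.1

/-- the correction of a set -/
structure Cor (P : Par) (F : Finset ℕ) (g : Finset ℕ → Finset ℕ) (a : Finset ℕ → ℕ) : Prop where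
  cl : ∀ p ∈ F, Sp P p ∨ In P p
  sub : ∀ T, (∀ p ∈ T, cls P F p) → g T ⊆ F
  mem : ∀ T, (∀ p ∈ T, cls P F p) → a T ∈ P.A ∪ P.B
  res : ∀ T, (∀ p ∈ T, cls P F p) → ((∏ p ∈ T, p) * (∏ p ∈ g T, p) * a T) % P.N ∈ P.R

theorem exists_cor (hO : Ok P) : ∃ F g a, Cor P F g a := by
  obtain ⟨F, hF, h⟩ := hO.fix
  have h1 : ∀ T : Finset ℕ, ∃ (G : Finset ℕ) (a : ℕ), (∀ p ∈ T, cls P F p) →
      G ⊆ F ∧ a ∈ P.A ∪ P.B ∧ ((∏ p ∈ T, p) * (∏ p ∈ G, p) * a) % P.N ∈ P.R := by
    intro T
    by_cases hT : ∀ p ∈ T, cls P F p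
    · obtain ⟨G, hG, a, ha, h2⟩ := h T (fun p hp => (hT p hp).1)
        (disjoint_left.2 fun p hp => (hT p hp).2)
      exact ⟨G, a, fun _ => ⟨hG, ha, h2⟩⟩
    · exact ⟨∅, 0, fun h => absurd h hT⟩
  choose g a hga using h1
  exact ⟨F, g, a, hF, fun T hT => (hga T hT).1, fun T hT => (hga T hT).2.1,
    fun T hT => (hga T hT).2.2⟩

/-- the pairs -/
noncomputable def DD (P : Par) (F : Finset ℕ) (g : Finset ℕ → Finset ℕ) (a : Finset ℕ → ℕ)
    (X y : ℕ) : Finset (Σ _ : Finset ℕ, ℕ) :=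
  (M1 (cls P F) y).sigma fun T => (range (X / (∏ p ∈ T ∪ g T, p) + 1)).filter
    fun r => y < r ∧ r.Prime ∧ r % P.N = a T

theorem card_DD_le {g : Finset ℕ → Finset ℕ} {a : Finset ℕ → ℕ} (hc : Cor P F g a) (X y : ℕ)
    (hy : ∀ p ∈ F, p ≤ y) : (DD P F g a X y).card ≤ (SS P X).card := by
  have hfac : ∀ T ∈ M1 (cls P F) y, (∀ p ∈ T ∪ g T, (Sp P p ∨ In P p) ∧ p ≤ y) ∧
      Disjoint T (g T) ∧ (T ∪ g T) \ F = T := by
    intro T hT
    obtain ⟨h1, h2⟩ := mem_M1 hT
    have hs := hc.sub T fun p hp => (h1 p hp).2.1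
    refine ⟨?_, ?_, ?_⟩
    · intro p hp
      rcases mem_union.1 hp with h | h
      · exact ⟨(h1 p h).2.1.1, (h1 p h).2.2⟩
      · exact ⟨hc.cl p (hs h), hy p (hs h)⟩
    · rw [disjoint_left]
      intro p hp hp'
      exact (h1 p hp).2.1.2 (hs hp')
    · ext p
      rw [mem_sdiff, mem_union]
      constructor
      · rintro ⟨h | h, h'⟩
        · exact h
        · exact absurd (hs h) h'
      · intro h
        exact ⟨Or.inl h, (h1 p h).2.1.2⟩
  refine Finset.card_le_card_of_injOn (fun t => insert t.2 (t.1 ∪ g t.1)) ?_ ?_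
  · rintro ⟨T, r⟩ ht
    rw [mem_coe, DD, mem_sigma, mem_filter, mem_range] at ht
    obtain ⟨hT, hr, hry, hrp, hrN⟩ := ht
    obtain ⟨h1, h2⟩ := mem_M1 hT
    obtain ⟨k1, k2, k3⟩ := hfac T hT
    simp only at hr hry hrp hrN
    have hTc : ∀ p ∈ T, cls P F p := fun p hp => (h1 p hp).2.1
    have hrT : r ∉ T ∪ g T := fun h => by have := (k1 r h).2; omega
    have hpos : 0 < ∏ p ∈ T ∪ g T, p := Finset.prod_pos fun p hp => (pr (k1 p hp).1).pos
    have hprod : r * ∏ p ∈ T ∪ g T, p ≤ X := by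
      have : r ≤ X / ∏ p ∈ T ∪ g T, p := by omega
      exact (Nat.le_div_iff_mul_le hpos).mp this
    have hprod' : ∏ p ∈ insert r (T ∪ g T), p ≤ X := by
      rw [Finset.prod_insert hrT]
      exact hprod
    have hrcl : Sp P r ∨ In P r := by
      rcases mem_union.1 (hc.mem T hTc) with h | h
      · exact Or.inl ⟨hrp, by rw [hrN]; exact h⟩
      · exact Or.inr ⟨hrp, by rw [hrN]; exact h⟩
    have hall : ∀ p ∈ insert r (T ∪ g T), Sp P p ∨ In P p := by
      intro p hp
      rcases mem_insert.mp hp with rfl | hp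
      · exact hrcl
      · exact (k1 p hp).1
    rw [mem_coe, SS, mem_filter, mem_powerset]
    refine ⟨?_, ⟨hall, ?_⟩, hprod'⟩
    · intro p hp
      rw [mem_range]
      have h3 : p ∣ ∏ q ∈ insert r (T ∪ g T), q := Finset.dvd_prod_of_mem _ hp
      have h4 : 0 < ∏ q ∈ insert r (T ∪ g T), q := Finset.prod_pos fun q hq => (pr (hall q hq)).pos
      have := Nat.le_of_dvd h4 h3
      omega
    · have h5 := hc.res T hTc
      rw [Finset.prod_insert hrT, Finset.prod_union k2]
      have h6 : (r * ((∏ p ∈ T, p) * ∏ p ∈ g T, p)) % P.N =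
          ((∏ p ∈ T, p) * (∏ p ∈ g T, p) * a T) % P.N := by
        rw [mul_comm r]
        refine Nat.ModEq.mul_left _ ?_
        show r % P.N = a T % P.N
        rw [← hrN, Nat.mod_mod]
      rw [h6]
      exact h5
  · rintro ⟨T, r⟩ ht ⟨T', r'⟩ ht' he
    rw [mem_coe, DD, mem_sigma, mem_filter, mem_range] at ht ht'
    obtain ⟨hT, hr, hry, hrp, hrN⟩ := ht
    obtain ⟨hT', hr', hry', hrp', hrN'⟩ := ht'
    obtain ⟨k1, k2, k3⟩ := hfac T hT
    obtain ⟨k1', k2', k3'⟩ := hfac T' hT'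
    simp only at hr hry hrp hrN hr' hry' hrp' hrN' he k1 k1'
    have hrr : r = r' := by
      have : r ∈ insert r' (T' ∪ g T') := by rw [← he]; exact mem_insert_self _ _
      rw [mem_insert] at this
      rcases this with h | h
      · exact h
      · have := (k1' r h).2
        omega
    subst hrr
    have e1 : ∀ (S : Finset ℕ), (∀ p ∈ S, p ≤ y) →
        (insert r S).filter (fun p => p ≤ y) = S := by
      intro S hS
      ext p
      simp only [mem_filter, mem_insert]
      constructor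
      · rintro ⟨rfl | h, h3⟩
        · omega
        · exact h
      · intro h; exact ⟨Or.inr h, hS p h⟩
    have hTT : T ∪ g T = T' ∪ g T' := by
      rw [← e1 (T ∪ g T) fun p hp => (k1 p hp).2, he, e1 (T' ∪ g T') fun p hp => (k1' p hp).2]
    have hTT2 : T = T' := by rw [← k3, ← k3', hTT]
    subst hTT2
    rfl

theorem exists_root (X : ℕ) : ∃ y : ℕ, y ^ 8 ≤ X ∧ X < (y + 1) ^ 8 := by
  refine ⟨Nat.sqrt (Nat.sqrt (Nat.sqrt X)), ?_, ?_⟩
  · have h1 := Nat.sqrt_le' X
    have h2 := Nat.sqrt_le' (Nat.sqrt X)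
    have h3 := Nat.sqrt_le' (Nat.sqrt (Nat.sqrt X))
    calc (Nat.sqrt (Nat.sqrt (Nat.sqrt X))) ^ 8 =
        (((Nat.sqrt (Nat.sqrt (Nat.sqrt X))) ^ 2) ^ 2) ^ 2 := by ring
      _ ≤ ((Nat.sqrt (Nat.sqrt X)) ^ 2) ^ 2 :=
          Nat.pow_le_pow_left (Nat.pow_le_pow_left h3 2) 2
      _ ≤ (Nat.sqrt X) ^ 2 := Nat.pow_le_pow_left h2 2
      _ ≤ X := h1
  · have h1 := Nat.lt_succ_sqrt' X
    have h2 := Nat.lt_succ_sqrt' (Nat.sqrt X)
    have h3 := Nat.lt_succ_sqrt' (Nat.sqrt (Nat.sqrt X))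
    calc X < (Nat.sqrt X + 1) ^ 2 := h1
      _ ≤ ((Nat.sqrt (Nat.sqrt X) + 1) ^ 2) ^ 2 := Nat.pow_le_pow_left h2 2
      _ ≤ (((Nat.sqrt (Nat.sqrt (Nat.sqrt X)) + 1) ^ 2) ^ 2) ^ 2 :=
          Nat.pow_le_pow_left (Nat.pow_le_pow_left h3 2) 2
      _ = _ := by ring

theorem log_le_two_sqrt {x : ℝ} (hx : 0 < x) : Real.log x ≤ 2 * Real.sqrt x := by
  have h1 : 0 < Real.sqrt x := Real.sqrt_pos.mpr hx
  have h2 : Real.log x = 2 * Real.log (Real.sqrt x) := by
    rw [Real.log_sqrt hx.le]; ring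
  rw [h2]
  have := Real.log_le_sub_one_of_pos h1
  linarith

theorem t_LOW (hO : Ok P) : S_LOW P := by
  obtain ⟨F, g, a, hcor⟩ := exists_cor hO
  obtain ⟨C, hC⟩ := mert hO F
  obtain ⟨c, Y₀, hc, hche⟩ := t_CHE hO
  obtain ⟨f, hf⟩ : ∃ f : ℕ, f = ∏ p ∈ F, p := ⟨_, rfl⟩
  have hf0 : 0 < f := by
    rw [hf]
    exact Finset.prod_pos fun p hp => (pr (hcor.cl p hp)).pos
  have hfF : ∀ p ∈ F, p ≤ f := by
    intro p hp
    rw [hf]
    refine Nat.le_of_dvd ?_ (Finset.dvd_prod_of_mem _ hp)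
    exact Finset.prod_pos fun p hp => (pr (hcor.cl p hp)).pos
  obtain ⟨y₀, hy₀⟩ : ∃ y₀ : ℕ, y₀ = max (max (max 5 f) Y₀) ⌈8 / c⌉₊ := ⟨_, rfl⟩
  have hfR : (0 : ℝ) < f := by exact_mod_cast hf0
  refine ⟨c / (4 * f) * (1 / 2 * Real.exp (-C)) / 16, y₀ ^ 8, by positivity, ?_⟩
  intro X hX
  obtain ⟨y, hy1, hy2⟩ := exists_root X
  have hyy : y₀ ≤ y := by
    have : y₀ ^ 8 < (y + 1) ^ 8 := lt_of_le_of_lt hX hy2
    have := lt_of_pow_lt_pow_left₀ 8 (Nat.zero_le _) this
    omega
  have hy5 : 5 ≤ y := by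
    have : 5 ≤ y₀ := by
      rw [hy₀]
      exact (((le_max_left 5 f).trans (le_max_left _ _)).trans (le_max_left _ _))
    omega
  have hyf : f ≤ y := by
    have : f ≤ y₀ := by
      rw [hy₀]
      exact (((le_max_right 5 f).trans (le_max_left _ _)).trans (le_max_left _ _))
    omega
  have hyY : Y₀ ≤ y := by
    have : Y₀ ≤ y₀ := by rw [hy₀]; exact (le_max_right _ _).trans (le_max_left _ _)
    omega
  have hyc : 8 / c ≤ (y : ℝ) := by
    have h1 : 8 / c ≤ (⌈8 / c⌉₊ : ℝ) := Nat.le_ceil _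
    have h2 : ⌈8 / c⌉₊ ≤ y := by
      have : ⌈8 / c⌉₊ ≤ y₀ := by rw [hy₀]; exact le_max_right _ _
      omega
    exact h1.trans (by exact_mod_cast h2)
  have hyR : (5 : ℝ) ≤ y := by exact_mod_cast hy5
  have hyX : y < X := by
    have : y < y ^ 8 := by
      calc y = y ^ 1 := (pow_one y).symm
        _ < y ^ 8 := Nat.pow_lt_pow_right (by omega) (by norm_num)
    omega
  have hX1 : (1 : ℝ) < X := by exact_mod_cast (show 1 < X by omega)
  have hlogy : 0 < Real.log y := Real.log_pos (by linarith)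
  have hlogX : 0 < Real.log X := Real.log_pos hX1
  have hlog16 : Real.log X ≤ 16 * Real.log y := by
    have h1 : X ≤ y ^ 16 := by
      have h2 : y + 1 ≤ y ^ 2 := by nlinarith
      calc X ≤ (y + 1) ^ 8 := hy2.le
        _ ≤ (y ^ 2) ^ 8 := Nat.pow_le_pow_left h2 8
        _ = y ^ 16 := by ring
    have : Real.log X ≤ Real.log ((y : ℝ) ^ 16) := by
      apply Real.log_le_log (by linarith)
      exact_mod_cast h1
    rwa [Real.log_pow] at this
  -- the sum
  have hsum : ∑ T ∈ M1 (cls P F) y, c / (4 * f) * (X / Real.log X) *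
      ((1 : ℝ) / ((∏ p ∈ T, p : ℕ) : ℝ)) ≤ ((DD P F g a X y).card : ℝ) := by
    rw [DD, Finset.card_sigma, Nat.cast_sum]
    refine Finset.sum_le_sum fun T hT => ?_
    obtain ⟨h1, h2⟩ := mem_M1 hT
    have hTc : ∀ p ∈ T, cls P F p := fun p hp => (h1 p hp).2.1
    have hsubF := hcor.sub T hTc
    have hdis : Disjoint T (g T) := by
      rw [disjoint_left]
      intro p hp hp'
      exact (h1 p hp).2.1.2 (hsubF hp')
    obtain ⟨m, hm⟩ : ∃ m, m = ∏ p ∈ T ∪ g T, p := ⟨_, rfl⟩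
    obtain ⟨n, hn⟩ : ∃ n, n = ∏ p ∈ T, p := ⟨_, rfl⟩
    have hgf : ∏ p ∈ g T, p ≤ f := by
      rw [hf]
      exact Finset.prod_le_prod_of_subset_of_one_le' hsubF fun p hp _ =>
        (pr (hcor.cl p hp)).one_lt.le
    have hg0 : 0 < ∏ p ∈ g T, p := Finset.prod_pos fun p hp => (pr (hcor.cl p (hsubF hp))).pos
    have hn0 : 0 < n := by
      rw [hn]; exact Finset.prod_pos fun p hp => (h1 p hp).1.pos
    have hmn : m = n * ∏ p ∈ g T, p := by rw [hm, hn, Finset.prod_union hdis]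
    have k6 : 0 < m := by rw [hmn]; exact Nat.mul_pos hn0 hg0
    have k5 : m ≤ f * n := by
      rw [hmn, mul_comm]
      exact Nat.mul_le_mul_right _ hgf
    rw [← hn] at h2
    rw [← hm, ← hn]
    obtain ⟨Y, hYdef⟩ : ∃ Y, Y = X / m := ⟨_, rfl⟩
    have hYy : y ^ 6 ≤ Y := by
      rw [hYdef, Nat.le_div_iff_mul_le k6]
      calc y ^ 6 * m ≤ y ^ 6 * y ^ 2 := by
            apply Nat.mul_le_mul_left
            calc m ≤ f * n := k5
              _ ≤ y * y := Nat.mul_le_mul hyf h2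
              _ = y ^ 2 := by ring
        _ = y ^ 8 := by ring
        _ ≤ X := hy1
    have hy6 : y ≤ y ^ 6 := Nat.le_self_pow (by norm_num) y
    have hY0 : Y₀ ≤ Y := by omega
    have hYX : Y ≤ X := by rw [hYdef]; exact Nat.div_le_self _ _
    have hY1 : (1 : ℝ) < (Y : ℝ) := by exact_mod_cast (show 1 < Y by omega)
    have hlY : 0 < Real.log (Y : ℝ) := Real.log_pos hY1
    have hlYX : Real.log (Y : ℝ) ≤ Real.log X :=
      Real.log_le_log (by linarith) (by exact_mod_cast hYX)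
    have haa := hO.cop _ (hcor.mem T hTc)
    have h3 := hche Y hY0 (a T) haa.1 haa.2
    -- discard the small primes
    have h4 : ((range (Y + 1)).filter fun p => p.Prime ∧ p % P.N = a T).card ≤
        ((range (Y + 1)).filter fun r => y < r ∧ r.Prime ∧ r % P.N = a T).card + (y + 1) := by
      have h5 : ((range (Y + 1)).filter fun p => p.Prime ∧ p % P.N = a T) ⊆
          ((range (Y + 1)).filter fun r => y < r ∧ r.Prime ∧ r % P.N = a T) ∪
            range (y + 1) := by
        intro p hp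
        rw [mem_filter] at hp
        rw [mem_union, mem_filter, mem_range]
        by_cases h : y < p
        · exact Or.inl ⟨mem_range.mp hp.1, h, hp.2⟩
        · right
          rw [mem_range]
          omega
      refine (Finset.card_le_card h5).trans ((Finset.card_union_le _ _).trans ?_)
      rw [Finset.card_range]
    have h4' : (((range (Y + 1)).filter fun p => p.Prime ∧ p % P.N = a T).card : ℝ) ≤
        (((range (Y + 1)).filter fun r => y < r ∧ r.Prime ∧ r % P.N = a T).card : ℝ) +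
          ((y : ℝ) + 1) := by
      exact_mod_cast h4
    have h6 : (y : ℝ) + 1 ≤ c / 2 * (Y / Real.log Y) := by
      have hs0 : 0 < Real.sqrt (Y : ℝ) := Real.sqrt_pos.mpr (by linarith)
      have hs1 : (y : ℝ) ^ 3 ≤ Real.sqrt (Y : ℝ) := by
        apply Real.le_sqrt_of_sq_le
        have : ((y : ℝ) ^ 3) ^ 2 = (y : ℝ) ^ 6 := by ring
        rw [this]
        exact_mod_cast hYy
      have hs2 : Real.sqrt (Y : ℝ) / 2 ≤ Y / Real.log Y := by
        rw [le_div_iff₀ hlY]
        have h7 := log_le_two_sqrt (show (0 : ℝ) < Y by linarith)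
        calc Real.sqrt (Y : ℝ) / 2 * Real.log Y ≤ Real.sqrt (Y : ℝ) / 2 * (2 * Real.sqrt Y) :=
              mul_le_mul_of_nonneg_left h7 (by positivity)
          _ = Real.sqrt (Y : ℝ) * Real.sqrt Y := by ring
          _ = Y := Real.mul_self_sqrt (by linarith)
      have hs3 : 8 ≤ c * (y : ℝ) := by
        rw [div_le_iff₀ hc] at hyc
        linarith
      calc (y : ℝ) + 1 ≤ 8 / 4 * (y * 1) := by linarith
        _ ≤ c * y / 4 * (y * y) := by
            apply mul_le_mul _ _ (by positivity) (by positivity)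
            · exact div_le_div_of_nonneg_right hs3 (by norm_num)
            · apply mul_le_mul_of_nonneg_left _ (by positivity)
              linarith
        _ = c / 2 * ((y : ℝ) ^ 3 / 2) := by ring
        _ ≤ c / 2 * (Real.sqrt Y / 2) := by
            apply mul_le_mul_of_nonneg_left _ (by positivity)
            exact div_le_div_of_nonneg_right hs1 (by norm_num)
        _ ≤ c / 2 * (Y / Real.log Y) := mul_le_mul_of_nonneg_left hs2 (by positivity)
    have h7 : c / 2 * (Y / Real.log Y) ≤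
        (((range (Y + 1)).filter fun r => y < r ∧ r.Prime ∧ r % P.N = a T).card : ℝ) := by
      have h8 : c * Y / Real.log Y = c / 2 * (Y / Real.log Y) + c / 2 * (Y / Real.log Y) := by ring
      rw [h8] at h3
      linarith
    rw [← hYdef]
    refine le_trans ?_ h7
    have hhalf : (X : ℝ) / (2 * m) ≤ (Y : ℝ) := by
      have h9 : X < m * Y + m := by
        rw [hYdef]
        have := Nat.div_add_mod X m
        have := Nat.mod_lt X k6
        omega
      have h10 : (X : ℝ) < m * (Y : ℝ) + m := by exact_mod_cast h9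
      have hm' : (0 : ℝ) < m := by exact_mod_cast k6
      rw [div_le_iff₀ (by positivity)]
      nlinarith
    have hm5 : (m : ℝ) ≤ f * n := by exact_mod_cast k5
    have hm' : (0 : ℝ) < m := by exact_mod_cast k6
    have hn' : (0 : ℝ) < n := by exact_mod_cast hn0
    have hX10 : (X : ℝ) / (2 * (f * n)) ≤ (X : ℝ) / (2 * m) := by
      apply div_le_div_of_nonneg_left (by positivity) (by positivity)
      linarith
    calc c / (4 * f) * (X / Real.log X) * ((1 : ℝ) / (n : ℝ)) =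
        c / 2 * (((X : ℝ) / (2 * (f * n))) / Real.log X) := by
          field_simp
          ring
      _ ≤ c / 2 * ((Y : ℝ) / Real.log X) := by
          apply mul_le_mul_of_nonneg_left _ (by positivity)
          apply div_le_div_of_nonneg_right _ hlogX.le
          exact hX10.trans hhalf
      _ ≤ c / 2 * ((Y : ℝ) / Real.log Y) := by
          apply mul_le_mul_of_nonneg_left _ (by positivity)
          apply div_le_div_of_nonneg_left (by positivity) hlY hlYX
  rw [← Finset.mul_sum] at hsum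
  have hG := G1_lower (cls P F) (1 - (al P + be P)) C y (by omega) (hC y (by omega))
  have hdl : 1 - (1 - (al P + be P)) = al P + be P := by ring
  rw [hdl] at hG
  have hcard : ((DD P F g a X y).card : ℝ) ≤ ((SS P X).card : ℝ) := by
    exact_mod_cast card_DD_le hcor X y fun p hp => (hfF p hp).trans hyf
  refine le_trans ?_ (hsum.trans hcard)
  have h6 : 0 ≤ c / (4 * f) * (X / Real.log X) := by positivity
  refine le_trans ?_ (mul_le_mul_of_nonneg_left hG h6)
  have hdl0 : 0 ≤ al P + be P := (add_pos (al_pos hO) (be_pos hO)).le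
  have hdl1 : al P + be P ≤ 1 := dl_le hO
  set dl : ℝ := al P + be P with hdldef
  have h7 : (Real.log X) ^ dl ≤ 16 * (Real.log y) ^ dl := by
    have h8 : (Real.log X) ^ dl ≤ (16 * Real.log y) ^ dl :=
      Real.rpow_le_rpow hlogX.le hlog16 hdl0
    rw [Real.mul_rpow (by norm_num) hlogy.le] at h8
    refine h8.trans ?_
    apply mul_le_mul_of_nonneg_right _ (by positivity)
    calc (16 : ℝ) ^ dl ≤ 16 ^ (1 : ℝ) := Real.rpow_le_rpow_of_exponent_le (by norm_num) hdl1
      _ = 16 := Real.rpow_one _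
  have h10 : (Real.log X) ^ (-1 + dl : ℝ) = (Real.log X) ^ dl / Real.log X := by
    rw [Real.rpow_add hlogX, Real.rpow_neg_one]
    ring
  rw [h10]
  have hee : 0 < Real.exp (-C) := Real.exp_pos _
  calc c / (4 * f) * (1 / 2 * Real.exp (-C)) / 16 * X * ((Real.log X) ^ dl / Real.log X)
      = c / (4 * f) * (X / Real.log X) * (1 / 2 * Real.exp (-C) / 16 * (Real.log X) ^ dl) := by
        ring
    _ ≤ c / (4 * f) * (X / Real.log X) *
        (1 / 2 * Real.exp (-C) / 16 * (16 * (Real.log y) ^ dl)) := by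
        apply mul_le_mul_of_nonneg_left _ h6
        apply mul_le_mul_of_nonneg_left h7 (by positivity)
    _ = c / (4 * f) * (X / Real.log X) * (1 / 2 * Real.exp (-C) * (Real.log y) ^ dl) := by ring

end Pool.Agent.X99.GQ.Lo
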