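import Mathlib
import Pool.Agent.Y703.CQ.Stm

/-!
# Nonsingular matrices of quadratic symbols over the numbers with prime factors in given classes

After project CQ of helper703.  The modulus and the classes of the primes are arbitrary: the primes
of the classes `A` (all of them `1` modulo `4`) are the split primes, they index the rows of the
matrix; the primes of the classes `B` are the other ones.  The numbers are in the classes `R`.
-/

set_option autoImplicit false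
set_option linter.unusedVariables false

open scoped Classical

namespace Pool.Agent.X99.GQ

open Finset
open Pool.Agent.Y703.CX (sm la jj XX eL zz kk S_SIE)
open Pool.Agent.Y703.CQ (nr sg prs HB S_EQ ext GdA S_SYM S_C2 S_LA c2)

/-- the parameters: the modulus, the classes of the split primes, the classes of the other primes,
the classes of the numbers -/
structure Par where
  N : ℕ
  A : Finset ℕ
  B : Finset ℕ
  R : Finset ℕ

variable (P : Par)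

/-- the split primes -/
def Sp (p : ℕ) : Prop := p.Prime ∧ p % P.N ∈ P.A

/-- the other primes -/
def In (p : ℕ) : Prop := p.Prime ∧ p % P.N ∈ P.B

/-- the conditions -/
structure Ok : Prop where
  pos : 0 < P.N
  four : 4 ∣ P.N
  one : ∀ a ∈ P.A, a % 4 = 1
  cop : ∀ a ∈ P.A ∪ P.B, a < P.N ∧ Nat.Coprime a P.N
  disj : Disjoint P.A P.B
  neA : P.A.Nonempty
  neB : P.B.Nonempty
  fix : ∃ F : Finset ℕ, (∀ p ∈ F, Sp P p ∨ In P p) ∧
    ∀ T : Finset ℕ, (∀ p ∈ T, Sp P p ∨ In P p) → Disjoint T F →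
      ∃ G ⊆ F, ∃ a ∈ P.A ∪ P.B, ((∏ p ∈ T, p) * (∏ p ∈ G, p) * a) % P.N ∈ P.R

/-- the log-density of the split primes -/
noncomputable def al : ℝ := (P.A.card : ℝ) / (Nat.totient P.N : ℝ)

/-- the log-density of the other primes -/
noncomputable def be : ℝ := (P.B.card : ℝ) / (Nat.totient P.N : ℝ)

/-- a function set to zero outside the split primes -/
def cu (x : ℕ → ZMod 2) (q : ℕ) : ZMod 2 := if q % P.N ∈ P.A then x q else 0

/-- the kernel of the matrix -/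
def Sol (f : ℕ → ZMod 2) (S : Finset ℕ) (x : ℕ → ZMod 2) : Prop :=
  ∀ p ∈ S, p % P.N ∈ P.A → ∑ q ∈ S, nr p q * (cu P x q + x p) + f p * x p = 0

/-- the good sets: the matrix is nonsingular -/
def Gd (f : ℕ → ZMod 2) (S : Finset ℕ) : Prop :=
  ∀ x, Sol P f S x → ∀ p ∈ S, p % P.N ∈ P.A → x p = 0

/-- the class of the sets of primes -/
def Cl (S : Finset ℕ) : Prop :=
  (∀ p ∈ S, Sp P p ∨ In P p) ∧ (∏ p ∈ S, p) % P.N ∈ P.R

/-- the sets of the class with product at most `X` -/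
noncomputable def SS (X : ℕ) : Finset (Finset ℕ) :=
  (range (X + 1)).powerset.filter fun S => Cl P S ∧ ∏ p ∈ S, p ≤ X

/-- the sets of split primes on which the product of the primes in `W` is a square -/
noncomputable def HD (W : Finset ℕ) (T : ℕ) : Finset (Finset ℕ) :=
  (range (T + 1)).powerset.filter fun S => (∀ p ∈ S, Sp P p ∧ p ∉ W ∧ ∑ u ∈ W, nr p u = 0) ∧
    ∏ p ∈ S, p ≤ T

/-- the logarithmic density of the split primes for a nontrivial quadratic character: `h` is the exponent -/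
def HAL (h : ℝ) : Prop := ∃ C c : ℝ, 1 ≤ C ∧ 0 ≤ c ∧ ∀ (W : Finset ℕ) (T : ℕ), W.Nonempty →
  (∀ u ∈ W, u.Prime ∧ u % P.N ∈ P.A) → 3 ≤ T →
  ∑ S ∈ HD P W T, (1 : ℝ) / ((∏ p ∈ S, p : ℕ) : ℝ) ≤
    C * (1 + Real.log ((∏ u ∈ W, u : ℕ) : ℝ)) ^ c * (Real.log T) ^ h

/-- FINAL: the proportion of the good sets -/
def S_DQ : Prop := ∀ f : ℕ → ZMod 2, Filter.Tendsto
  (fun X : ℕ => (((SS P X).filter (Gd P f)).card : ℝ) / ((SS P X).card : ℝ)) Filter.atTop (nhds c2)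

/-- FINAL, in terms of the numbers `D`. -/
def S_DEN : Prop := ∀ f : ℕ → ZMod 2, Filter.Tendsto
  (fun X : ℕ => (((Icc 1 X).filter fun D => Squarefree D ∧ Cl P D.primeFactors ∧
      Gd P f D.primeFactors).card : ℝ) /
    (((Icc 1 X).filter fun D => Squarefree D ∧ Cl P D.primeFactors).card : ℝ))
  Filter.atTop (nhds c2)

/-- bilinear sums of quadratic symbols. -/
def S_BIL : Prop := ∃ C : ℝ, 1 ≤ C ∧ ∀ (P Q : Finset ℕ) (A B z : ℕ) (c d : ℕ → ℂ),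
  (∀ p ∈ P, p.Prime ∧ p % 4 = 1 ∧ p ≤ A) → (∀ q ∈ Q, q.Prime ∧ q ≠ 2 ∧ q ≤ B) →
  Disjoint P Q → 1 ≤ z → z ≤ A → z ≤ B → (∀ p, ‖c p‖ ≤ 1) → (∀ q, ‖d q‖ ≤ 1) →
  ‖∑ p ∈ P, ∑ q ∈ Q, c p * d q * sg (nr p q)‖ ^ 12 * z ≤ C * ((A : ℝ) * B) ^ 12

/-- the labels of the large split primes with respect to the small ones are not degenerate -/
def Nd (S₀ S₁ : Finset ℕ) : Prop :=
  ∀ w : ℕ → ZMod 2, (∃ u ∈ S₀, u % P.N ∈ P.A ∧ w u ≠ 0) →
    ∃ p ∈ S₁, p % P.N ∈ P.A ∧ ∑ u ∈ S₀.filter (fun u => u % P.N ∈ P.A), w u * nr p u ≠ 0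

/-- the count in a box. -/
def S_BOX : Prop := S_EQ → S_LA → ∀ (f : ℕ → ZMod 2) (ι : Type) [Fintype ι] [LinearOrder ι]
  (J1 : Finset ι) (C : ι → Finset ℕ) (X : ι → ℕ) (κ : ℝ) (S₀ : Finset ℕ), 0 ≤ κ →
  (∀ i, (C i).card ≤ X i) → HB J1 C X κ → (∀ u ∈ S₀, u.Prime ∧ u ≠ 2) →
  (∀ i, ∀ p ∈ C i, p.Prime ∧ p ≠ 2 ∧ p ∉ S₀ ∧ (i ∈ J1 ↔ p % P.N ∈ P.A)) →
  (∀ i l, i ≠ l → Disjoint (C i) (C l)) → (∃ i, i ∉ J1) →
  |(((Fintype.piFinset C).filter fun p => Nd P S₀ (univ.image p) ∧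
      Gd P f (S₀ ∪ univ.image p)).card : ℝ) -
      c2 * (((Fintype.piFinset C).filter fun p => Nd P S₀ (univ.image p)).card : ℝ)| ≤
    2 * (4 ^ S₀.card / 2 ^ J1.card) *
      (((Fintype.piFinset C).filter fun p => Nd P S₀ (univ.image p)).card : ℝ) +
    2 ^ ((2 * S₀.card + 1) * Fintype.card ι + (prs J1).card) * (κ * ∏ j, (X j : ℝ))

/-- the regular sets -/
noncomputable def RR (X z H k V : ℕ) : Finset (Finset ℕ) :=
  (SS P X).filter fun S => Set.InjOn (jj H) (la z S : Set ℕ) ∧ S.card ≤ k ∧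
    (∏ p ∈ sm z S, p) * ∏ p ∈ la z S, XX H (jj H p) ≤ X ∧
    2 * (sm z S).card + V < ((la z S).filter fun p => p % P.N ∈ P.A).card ∧
    ∃ p ∈ la z S, p % P.N ∉ P.A

/-- the sum over the boxes. -/
def S_KEY : Prop := S_BIL → S_EQ → S_LA → S_BOX P → ∃ C : ℝ, 1 ≤ C ∧
  ∀ (f : ℕ → ZMod 2) (X z H k V N : ℕ) (κ : ℝ), 1 ≤ X → 1 ≤ H → 1 ≤ z →
  0 ≤ κ → C ≤ κ ^ 12 * z → (H : ℝ) * Real.log X < N →
  |(((RR P X z H k V).filter fun S => Nd P (sm z S) (la z S) ∧ Gd P f S).card : ℝ) -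
      c2 * (((RR P X z H k V).filter fun S => Nd P (sm z S) (la z S)).card : ℝ)| ≤
    2 * (1 / 2 : ℝ) ^ V * ((RR P X z H k V).card : ℝ) +
    (P.N * N + 1 : ℝ) ^ k * (3 ^ (3 * k ^ 2) * κ) * (X * (1 + Real.log X))

/-- sets with many primes, sets near the boundary, sets with two primes in a block. -/
structure CntP : Prop where
  many : ∀ (X k : ℕ), 1 ≤ X →
    (((SS P X).filter fun S => k < S.card).card : ℝ) * 2 ^ k ≤ X * (1 + Real.log X)
  cut : ∀ (X z H k : ℕ), 1 ≤ X → 1 ≤ H →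
    (((SS P X).filter fun S => S.card ≤ k ∧
      X < (∏ p ∈ sm z S, p) * ∏ p ∈ la z S, XX H (jj H p)).card : ℝ) ≤ X * k / H + 1
  coll : ∀ (X z H : ℕ), 1 ≤ X → 1 ≤ H → (((SS P X).filter fun S =>
    ¬ Set.InjOn (jj H) (la z S : Set ℕ)).card : ℝ) ≤ 4 * X * (1 + Real.log X) / H

/-- Mertens' theorem modulo `N`. -/
def S_MER : Prop := ∀ a : ℕ, a < P.N → Nat.Coprime a P.N → ∃ C : ℝ, ∀ y : ℕ, 3 ≤ y →
  |∑ p ∈ (range (y + 1)).filter (fun p => p.Prime ∧ p % P.N = a), (1 : ℝ) / p -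
    1 / (Nat.totient P.N : ℝ) * Real.log (Real.log y)| ≤ C

/-- many primes in the classes modulo `N`. -/
def S_CHE : Prop := ∃ (c : ℝ) (Y₀ : ℕ), 0 < c ∧ ∀ Y : ℕ, Y₀ ≤ Y → ∀ a : ℕ, a < P.N →
  Nat.Coprime a P.N →
  c * Y / Real.log Y ≤ (((range (Y + 1)).filter fun p => p.Prime ∧ p % P.N = a).card : ℝ)

/-- few sets have degenerate labels. -/
def S_BAD (η : ℝ) : Prop := S_SIE → ∃ (C : ℝ) (X₀ : ℕ), ∀ X : ℕ, X₀ ≤ X →
  (((SS P X).filter fun S => S.card ≤ kk X ∧ ¬ Nd P (sm (zz X) S) (la (zz X) S)).card : ℝ) ≤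
    C * X * (Real.log X) ^ (-1 + (al P + be P) - η : ℝ)

/-- few sets have few large split primes or no large other prime. -/
def S_FEW (η : ℝ) : Prop := S_SIE → ∀ (V : ℕ), ∃ (C : ℝ) (X₀ : ℕ), ∀ X : ℕ, X₀ ≤ X →
  (((SS P X).filter fun S => ((la (zz X) S).filter fun p => p % P.N ∈ P.A).card ≤
      2 * (sm (zz X) S).card + V ∨ ∀ p ∈ la (zz X) S, p % P.N ∈ P.A).card : ℝ) ≤
    C * X * (Real.log X) ^ (-1 + (al P + be P) - η : ℝ)

/-- the lower bound for the size of the class. -/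
def S_LOW : Prop := ∃ (c : ℝ) (X₀ : ℕ), 0 < c ∧ ∀ X : ℕ, X₀ ≤ X →
  c * X * (Real.log X) ^ (-1 + (al P + be P) : ℝ) ≤ ((SS P X).card : ℝ)

end Pool.Agent.X99.GQ
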