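import Pool.Agent.X99.GQ.Stm
import Pool.Agent.Y710.CQ.BIL
import Pool.Agent.Y405.CQ.MER
import Pool.Agent.TH423.SH.PAIP

/-!
# Bilinear sums (after helper710), Mertens' theorem (after helper405), many primes (after helper302)
-/

set_option autoImplicit false
set_option linter.all false

open Finset

namespace Pool.Agent.X99.GQ

open Pool.Agent.Y703.CQ (nr sg)
open Pool.Agent.Y710.CQ (xi sg_xi bil)

theorem t_BIL : S_BIL := by
  refine ⟨3 * 6 ^ 6, by norm_num, ?_⟩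
  intro P Q A B z c d hP hQ hdis hz hzA hzB hc hd
  have hne : ∀ p ∈ P, ∀ q ∈ Q, p ≠ q := fun p hp q hq he =>
    (Finset.disjoint_left.1 hdis) hp (he ▸ hq)
  have hzr : (1 : ℝ) ≤ z := by exact_mod_cast hz
  have hP' : ∀ p ∈ P, p.Prime ∧ p ≠ 2 ∧ p ≤ A := by
    intro p hp
    obtain ⟨h1, h2, h3⟩ := hP p hp
    exact ⟨h1, by omega, h3⟩
  rcases le_total B A with hBA | hAB
  · have e1 : ∑ p ∈ P, ∑ q ∈ Q, c p * d q * sg (nr p q) =
        ∑ q ∈ Q, ∑ p ∈ P, d q * c p * xi q p := by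
      rw [sum_comm]
      refine sum_congr rfl fun q hq => sum_congr rfl fun p hp => ?_
      obtain ⟨p1, p2, -⟩ := hP p hp
      obtain ⟨q1, q2, -⟩ := hQ q hq
      rw [sg_xi p1 q1 (hne p hp q hq), mul_comm (c p)]
      congr 1
      unfold xi
      rw [jacobiSym.quadratic_reciprocity_one_mod_four (a := p) (b := q) (by omega)
        (q1.odd_of_ne_two q2)]
    rw [e1]
    have h1 := bil (hz.trans hzB) hBA hQ hP' d c hd hc
    have h2 : (z : ℝ) ≤ B := by exact_mod_cast hzB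
    calc ‖∑ q ∈ Q, ∑ p ∈ P, d q * c p * xi q p‖ ^ 12 * z ≤
        (3 * 6 ^ 6 * ((B : ℝ) ^ 11 * (A : ℝ) ^ 12)) * B := by
          apply mul_le_mul h1 h2 (by positivity) (by positivity)
      _ = 3 * 6 ^ 6 * ((A : ℝ) * B) ^ 12 := by ring
  · have e1 : ∑ p ∈ P, ∑ q ∈ Q, c p * d q * sg (nr p q) =
        ∑ p ∈ P, ∑ q ∈ Q, c p * d q * xi p q := by
      refine sum_congr rfl fun p hp => sum_congr rfl fun q hq => ?_
      rw [sg_xi (hP p hp).1 (hQ q hq).1 (hne p hp q hq)]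
    rw [e1]
    have h1 := bil (hz.trans hzA) hAB hP' hQ c d hc hd
    have h2 : (z : ℝ) ≤ A := by exact_mod_cast hzA
    calc ‖∑ p ∈ P, ∑ q ∈ Q, c p * d q * xi p q‖ ^ 12 * z ≤
        (3 * 6 ^ 6 * ((A : ℝ) ^ 11 * (B : ℝ) ^ 12)) * A := by
          apply mul_le_mul h1 h2 (by positivity) (by positivity)
      _ = 3 * 6 ^ 6 * ((A : ℝ) * B) ^ 12 := by ring



theorem t_MER {P : Par} (hO : Ok P) : S_MER P := by
  intro a ha hc
  obtain ⟨C, -, hC⟩ := Pool.Agent.Y405.CQ.mertens_ap P.N hO.pos a ha hc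
  refine ⟨C, fun y hy => ?_⟩
  have h1 := hC y hy
  have h3 : (range (y + 1)).filter (fun p => p.Prime ∧ p % P.N = a) =
      (Icc 1 y).filter (fun p => p.Prime ∧ p % P.N = a) := by
    ext p
    rw [mem_filter, mem_filter, mem_range, mem_Icc]
    constructor
    · rintro ⟨g1, g2, g3⟩
      exact ⟨⟨g2.one_lt.le, by omega⟩, g2, g3⟩
    · rintro ⟨⟨g0, g1⟩, g2, g3⟩
      exact ⟨by omega, g2, g3⟩
  rw [h3]
  exact h1

theorem t_CHE {P : Par} (hO : Ok P) : S_CHE P := by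
  obtain ⟨x₀, hx₀⟩ := Pool.Agent.TH423.SH.pai P.N hO.pos (1 / 2) (1 / 4) (by norm_num)
    (by norm_num)
  have ht : (0 : ℝ) < (Nat.totient P.N : ℝ) := by exact_mod_cast Nat.totient_pos.2 hO.pos
  refine ⟨1 / (8 * (Nat.totient P.N : ℝ)), max 4 ⌈x₀⌉₊, by positivity, ?_⟩
  intro Y hY a ha hco
  have hY4 : 4 ≤ Y := le_trans (le_max_left _ _) hY
  have hYx : x₀ ≤ (Y : ℝ) := (Nat.le_ceil x₀).trans (by exact_mod_cast (le_max_right _ _).trans hY)
  have hY4' : (4 : ℝ) ≤ Y := by exact_mod_cast hY4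
  have hdiv1 : ((Y / 2 : ℕ) : ℝ) ≤ (Y : ℝ) / 2 := Nat.cast_div_le
  have hdiv2 : (Y : ℝ) / 2 ≤ ((Y / 2 + 1 : ℕ) : ℝ) := by
    have : Y < 2 * (Y / 2 + 1) := by omega
    have : (Y : ℝ) < 2 * ((Y / 2 + 1 : ℕ) : ℝ) := by exact_mod_cast this
    linarith
  have hlog : 0 < Real.log Y := Real.log_pos (by linarith)
  have h := hx₀ Y hYx (Y / 2 + 1) Y a hdiv2 (by linarith)
    (by push_cast; linarith) hco
  have h1 := (abs_le.mp h).1
  have ham : a % P.N = a := Nat.mod_eq_of_lt ha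
  rw [ham] at h1
  have hsub : (Ioc (Y / 2 + 1) Y).filter (fun q => q.Prime ∧ q % P.N = a) ⊆
      (range (Y + 1)).filter fun p => p.Prime ∧ p % P.N = a := by
    intro q hq
    rw [mem_filter, mem_Ioc] at hq
    rw [mem_filter, mem_range]
    exact ⟨by omega, hq.2⟩
  have hcard : (((Ioc (Y / 2 + 1) Y).filter (fun q => q.Prime ∧ q % P.N = a)).card : ℝ) ≤
      (((range (Y + 1)).filter fun p => p.Prime ∧ p % P.N = a).card : ℝ) := by
    exact_mod_cast Finset.card_le_card hsub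
  refine le_trans ?_ hcard
  have h2 : (1 / 2 : ℝ) * (((Y : ℝ) - ((Y / 2 + 1 : ℕ) : ℝ)) / ((Nat.totient P.N : ℝ) * Real.log Y)) ≤
      (((Ioc (Y / 2 + 1) Y).filter (fun q => q.Prime ∧ q % P.N = a)).card : ℝ) := by
    linarith
  refine le_trans ?_ h2
  have h3 : (Y : ℝ) / 4 ≤ (Y : ℝ) - ((Y / 2 + 1 : ℕ) : ℝ) := by push_cast; linarith
  have h4 : (Y : ℝ) / 4 / ((Nat.totient P.N : ℝ) * Real.log Y) ≤
      ((Y : ℝ) - ((Y / 2 + 1 : ℕ) : ℝ)) / ((Nat.totient P.N : ℝ) * Real.log Y) := by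
    apply div_le_div_of_nonneg_right h3
    positivity
  calc 1 / (8 * (Nat.totient P.N : ℝ)) * Y / Real.log Y =
        1 / 2 * ((Y : ℝ) / 4 / ((Nat.totient P.N : ℝ) * Real.log Y)) := by
        field_simp; ring
    _ ≤ _ := by linarith

end Pool.Agent.X99.GQ
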