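import Mathlib
import Pool.Agent.X99.GQ.Stm
import Pool.Agent.X99.GQ.Box
import Pool.Agent.Y475.CQ.HAL

/-!
# The logarithmic density for a quadratic character, arbitrary modulus

After the file `Pool/Agent/Y475/CQ/HAL.lean` of helper475.
-/

set_option autoImplicit false
set_option linter.unusedVariables false

open scoped Classical

namespace Pool.Agent.X99.GQ.Ha

open Finset
open Pool.Agent.Y703.CQ (nr)
open Pool.Agent.X99.GQ
open Pool.Agent.Y475.CQ (cJ cJ_mod leg sum_zero tsum_le part_le zeta_le pow_small main_le)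

variable {P : Par}

/-- real characters modulo `N`, independent, which are one on the classes of the split primes -/
structure RC (P : Par) {ι : Type} [Fintype ι] (c : ι → (ℕ →* ℝ)) : Prop where
  val : ∀ i n, c i n = 0 ∨ c i n = 1 ∨ c i n = -1
  per : ∀ i (a b : ℕ), a ≡ b [MOD P.N] → c i a = c i b
  ind : ∀ V : Finset ι, V.Nonempty → ∃ k, Nat.Coprime k P.N ∧ (∏ i ∈ V, c i) k = -1
  one : ∀ i (a : ℕ), a % P.N ∈ P.A → c i a = 1

/-- with the Jacobi symbol -/
noncomputable def ccM {ι : Type} (c : ι → (ℕ →* ℝ)) (M : ℕ) : Option ι → (ℕ →* ℝ)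
  | none => cJ M
  | some i => c i

theorem cJ_val (M n : ℕ) : cJ M n = 0 ∨ cJ M n = 1 ∨ cJ M n = -1 := by
  rcases jacobiSym.trichotomy (n : ℤ) M with h | h | h
  · left; show ((jacobiSym (n : ℤ) M : ℤ) : ℝ) = 0; rw [h]; simp
  · right; left; show ((jacobiSym (n : ℤ) M : ℤ) : ℝ) = 1; rw [h]; simp
  · right; right; show ((jacobiSym (n : ℤ) M : ℤ) : ℝ) = -1; rw [h]; simp

section
variable {ι : Type} [Fintype ι] [DecidableEq ι] {c : ι → (ℕ →* ℝ)}

theorem cc_val (hR : RC P c) (M : ℕ) (i : Option ι) (n : ℕ) :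
    ccM c M i n = 0 ∨ ccM c M i n = 1 ∨ ccM c M i n = -1 := by
  cases i with
  | none => exact cJ_val M n
  | some i => exact hR.val i n

/-- congruent modulo the period -/
theorem cc_mod (hR : RC P c) (M : ℕ) (V : Finset (Option ι)) (a b : ℕ) (hN : a ≡ b [MOD P.N])
    (hM : none ∈ V → a ≡ b [MOD M]) : (∏ i ∈ V, ccM c M i) a = (∏ i ∈ V, ccM c M i) b := by
  rw [MonoidHom.finsetProd_apply, MonoidHom.finsetProd_apply]
  refine prod_congr rfl fun i hi => ?_
  cases i with
  | none => exact cJ_mod M a b (hM hi)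
  | some i => exact hR.per i a b hN

theorem abs_cc (hR : RC P c) (M : ℕ) (V : Finset (Option ι)) (n : ℕ) :
    |(∏ i ∈ V, ccM c M i) n| ≤ 1 := by
  rw [MonoidHom.finsetProd_apply, abs_prod]
  refine prod_le_one (fun _ _ => abs_nonneg _) fun i _ => ?_
  rcases cc_val hR M i n with h | h | h <;> rw [h] <;> norm_num

theorem prod_neg (M : ℕ) (V : Finset (Option ι)) (j : Option ι) (hj : j ∈ V) (k : ℕ)
    (h1 : ccM c M j k = -1) (h2 : ∀ i ∈ V, i ≠ j → ccM c M i k = 1) :
    (∏ i ∈ V, ccM c M i) k = -1 := by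
  rw [MonoidHom.finsetProd_apply, prod_eq_single_of_mem j hj h2, h1]

theorem small_V (hR : RC P c) (M : ℕ) (V : Finset (Option ι)) (hV : V.Nonempty) (h3 : none ∉ V) :
    ∃ k, Nat.Coprime k P.N ∧ (∏ i ∈ V, ccM c M i) k = -1 := by
  have e : V = (univ.filter fun i : ι => some i ∈ V).map Function.Embedding.some := by
    ext j
    cases j with
    | none => simp [h3]
    | some j => simp
  have hne : (univ.filter fun i : ι => some i ∈ V).Nonempty := by
    rw [e] at hV
    exact Finset.map_nonempty.1 hV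
  obtain ⟨k, h1, h2⟩ := hR.ind _ hne
  refine ⟨k, h1, ?_⟩
  rw [e, prod_map]
  exact h2

/-- a number congruent to one modulo `N` which is a nonresidue modulo the product of the primes -/
theorem exK (hO : Ok P) (W : Finset ℕ) (hW : W.Nonempty) (hp : ∀ u ∈ W, u.Prime ∧ u % P.N ∈ P.A) :
    ∃ k : ℕ, k ≡ 1 [MOD P.N] ∧ Nat.Coprime k (∏ u ∈ W, u) ∧
      jacobiSym (k : ℤ) (∏ u ∈ W, u) = -1 := by
  obtain ⟨v, hv⟩ := hW
  have hvp := (hp v hv).1
  have hvf : Fact v.Prime := ⟨hvp⟩
  have hv4 := Ok.mod4 hO (hp v hv).2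
  have hv2 : v ≠ 2 := by rintro rfl; omega
  have hvN : Nat.Coprime v P.N := by
    have h1 := (hO.cop _ (mem_union_left _ (hp v hv).2)).2
    rwa [Nat.coprime_iff_gcd_eq_one, ← Nat.gcd_rec, Nat.gcd_comm,
      ← Nat.coprime_iff_gcd_eq_one] at h1
  obtain ⟨g, hg⟩ := FiniteField.exists_nonsquare (F := ZMod v) (by rw [ZMod.ringChar_zmod_n]; exact hv2)
  set Q := ∏ u ∈ W.erase v, u with hQ
  have hM : ∏ u ∈ W, u = v * Q := (mul_prod_erase W (fun u => u) hv).symm
  have hcop : Nat.Coprime v (P.N * Q) := by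
    refine Nat.Coprime.mul_right hvN ?_
    rw [Nat.coprime_prod_right_iff]
    intro u hu
    exact (Nat.coprime_primes hvp (hp u (mem_of_mem_erase hu)).1).2 (ne_of_mem_erase hu).symm
  obtain ⟨k, hk1, hk2⟩ := Nat.chineseRemainder hcop g.val 1
  have hkN : k ≡ 1 [MOD P.N] := hk2.of_dvd (dvd_mul_right _ _)
  have hkQ : k ≡ 1 [MOD Q] := hk2.of_dvd (dvd_mul_left _ _)
  have hkv : ((k : ℕ) : ZMod v) = g := by
    rw [(ZMod.natCast_eq_natCast_iff k g.val v).2 hk1, ZMod.natCast_zmod_val]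
  have hJQ : jacobiSym (k : ℤ) Q = 1 := by
    have h1 : jacobiSym (k : ℤ) Q = jacobiSym ((1 : ℕ) : ℤ) Q :=
      jacobiSym.mod_left' ((Int.natCast_modEq_iff).2 hkQ)
    rw [h1, Nat.cast_one, jacobiSym.one_left]
  have hJv : jacobiSym (k : ℤ) v = -1 := by
    rw [leg, legendreSym.eq_neg_one_iff]
    rw [Int.cast_natCast, hkv]
    exact hg
  have hQ0 : Q ≠ 0 := by
    rw [hQ, prod_ne_zero_iff]
    intro u hu
    exact (hp u (mem_of_mem_erase hu)).1.ne_zero
  have : NeZero v := ⟨hvp.ne_zero⟩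
  have : NeZero Q := ⟨hQ0⟩
  refine ⟨k, hkN, ?_, ?_⟩
  · rw [hM]
    refine Nat.Coprime.mul_right ?_ ?_
    · rw [Nat.coprime_comm, Nat.Prime.coprime_iff_not_dvd hvp]
      intro h
      rw [← ZMod.natCast_eq_zero_iff, hkv] at h
      exact hg (h ▸ IsSquare.zero)
    · have := hkQ.gcd_eq
      rw [Nat.gcd_one_left] at this
      exact this
  · rw [hM, jacobiSym.mul_right, hJv, hJQ, mul_one]

/-- the bounds of the L-functions -/
theorem L_le (hO : Ok P) (hR : RC P c) (W : Finset ℕ) (hW : W.Nonempty)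
    (hp : ∀ u ∈ W, u.Prime ∧ u % P.N ∈ P.A)
    (V : Finset (Option ι)) (hV : V.Nonempty) (σ : ℝ) (hσ : 1 < σ) :
    ∑' n : ℕ, (∏ i ∈ V, ccM c (∏ u ∈ W, u) i) n * (n : ℝ) ^ (-σ) ≤
      (3 + Real.log P.N) * if none ∈ V then 1 + Real.log ((∏ u ∈ W, u : ℕ) : ℝ) else 1 := by
  set M := ∏ u ∈ W, u with hM
  have hN0 : 0 < P.N := hO.pos
  have hlN : 0 ≤ Real.log P.N := Real.log_natCast_nonneg _
  obtain ⟨k, hk1, hk2, hk3⟩ := exK hO W hW hp
  have hM0 : 0 < M := by
    rw [hM]
    exact prod_pos fun u hu => (hp u hu).1.pos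
  split_ifs with h3
  · have hq : 1 ≤ P.N * M := Nat.mul_pos hN0 hM0
    have hper : ∀ n, (∏ i ∈ V, ccM c M i) (P.N * M + n) = (∏ i ∈ V, ccM c M i) n := by
      intro n
      refine cc_mod hR M V _ _ ?_ fun _ => ?_
      · show (P.N * M + n) % P.N = n % P.N
        rw [Nat.mul_add_mod]
      · show (P.N * M + n) % M = n % M
        rw [mul_comm P.N M, Nat.mul_add_mod]
    have hkneg : (∏ i ∈ V, ccM c M i) k = -1 := by
      refine prod_neg M V none h3 k ?_ fun i hi h => ?_
      · show ((jacobiSym (k : ℤ) M : ℤ) : ℝ) = -1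
        rw [hk3]; simp
      · cases i with
        | none => exact absurd rfl h
        | some i =>
          show c i k = 1
          rw [hR.per i k 1 hk1, map_one]
    have hkN : Nat.Coprime k P.N := by
      have := hk1.gcd_eq
      rw [Nat.gcd_one_left] at this
      exact this
    have hz := sum_zero (∏ i ∈ V, ccM c M i) (P.N * M) hq hper k
      (Nat.Coprime.mul_right hkN hk2) hkneg
    have h5 := tsum_le (fun n => (∏ i ∈ V, ccM c M i) n) (P.N * M) hq (abs_cc hR M V)
      (part_le _ (P.N * M) hq (abs_cc hR M V) hper hz) σ hσ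
    refine h5.trans ?_
    have hM0' : (0 : ℝ) < (M : ℝ) := by exact_mod_cast hM0
    have hN0' : (0 : ℝ) < (P.N : ℝ) := by exact_mod_cast hN0
    rw [Nat.cast_mul, Real.log_mul hN0'.ne' hM0'.ne']
    have hlM : 0 ≤ Real.log M := Real.log_natCast_nonneg _
    nlinarith [mul_nonneg hlN hlM]
  · obtain ⟨k', hk1', hk2'⟩ := small_V hR M V hV h3
    have hper : ∀ n, (∏ i ∈ V, ccM c M i) (P.N + n) = (∏ i ∈ V, ccM c M i) n := by
      intro n
      refine cc_mod hR M V _ _ ?_ fun h => absurd h h3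
      show (P.N + n) % P.N = n % P.N
      rw [Nat.add_mod_left]
    have hz := sum_zero (∏ i ∈ V, ccM c M i) P.N hN0 hper k' hk1' hk2'
    have h5 := tsum_le (fun n => (∏ i ∈ V, ccM c M i) n) P.N hN0 (abs_cc hR M V)
      (part_le _ P.N hN0 (abs_cc hR M V) hper hz) σ hσ
    rw [mul_one]
    exact h5

/-- the symbols of a split prime -/
theorem cc_one (hO : Ok P) (hR : RC P c) (W : Finset ℕ) (hp : ∀ u ∈ W, u.Prime ∧ u % P.N ∈ P.A)
    (p : ℕ) (h : Sp P p) (hpW : p ∉ W)
    (hs : ∑ u ∈ W, nr p u = 0) (i : Option ι) : ccM c (∏ u ∈ W, u) i p = 1 := by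
  obtain ⟨h1, h2⟩ := h
  have hp4 : p % 4 = 1 := Ok.mod4 hO h2
  have hpf : Fact p.Prime := ⟨h1⟩
  cases i with
  | some i => exact hR.one i p h2
  | none =>
    show ((jacobiSym (p : ℤ) (∏ u ∈ W, u) : ℤ) : ℝ) = 1
    have key : ∀ W' : Finset ℕ, W' ⊆ W →
        jacobiSym (p : ℤ) (∏ u ∈ W', u) = if ∑ u ∈ W', nr p u = 0 then 1 else -1 := by
      intro W'
      induction W' using Finset.induction_on with
      | empty => intro _; simp
      | insert a s ha ih =>
        intro hs'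
        have haW : a ∈ W := hs' (mem_insert_self a s)
        have ihs := ih ((subset_insert a s).trans hs')
        have hap := (hp a haW).1
        have ha4 : a % 4 = 1 := Ok.mod4 hO (hp a haW).2
        have haf : Fact a.Prime := ⟨hap⟩
        have : NeZero a := ⟨hap.ne_zero⟩
        have : NeZero (∏ u ∈ s, u) := ⟨by
          rw [prod_ne_zero_iff]
          intro u hu
          exact (hp u (hs' (mem_insert_of_mem hu))).1.ne_zero⟩
        rw [prod_insert ha, sum_insert ha, jacobiSym.mul_right, ihs]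
        have hodd : Odd a := Nat.odd_iff.2 (by omega)
        have hrec : jacobiSym (p : ℤ) a = jacobiSym (a : ℤ) p :=
          jacobiSym.quadratic_reciprocity_one_mod_four (by omega) hodd
        have hne : ((a : ℤ) : ZMod p) ≠ 0 := by
          intro h0
          rw [Int.cast_natCast, ZMod.natCast_eq_zero_iff] at h0
          have := (Nat.prime_dvd_prime_iff_eq h1 hap).1 h0
          exact hpW (this ▸ haW)
        have hval : jacobiSym (p : ℤ) a = if nr p a = 0 then 1 else -1 := by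
          rw [hrec, leg]
          unfold nr
          by_cases hsq : IsSquare (a : ZMod p)
          · rw [if_pos hsq, if_pos rfl]
            exact (legendreSym.eq_one_iff p hne).2 (by rwa [Int.cast_natCast])
          · rw [if_neg hsq, if_neg (by decide)]
            exact (legendreSym.eq_neg_one_iff p).2 (by rwa [Int.cast_natCast])
        rw [hval]
        have hz : ∀ x y : ZMod 2, (if x = 0 then (1 : ℤ) else -1) * (if y = 0 then 1 else -1) =
            if x + y = 0 then 1 else -1 := by decide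
        exact hz _ _
    rw [key W Subset.rfl, if_pos hs]
    simp

theorem t_HAL (hO : Ok P) (hR : RC P c) : HAL P (1 / 2 ^ (Fintype.card ι + 1)) := by
  set m := Fintype.card ι with hm
  set K : ℝ := 3 + Real.log P.N with hK
  have hlN : 0 ≤ Real.log P.N := Real.log_natCast_nonneg _
  have hK1 : 1 ≤ K := by linarith
  refine ⟨6 * K, 1 / 2, by linarith, by norm_num, fun W T hW hp hT => ?_⟩
  set M := ∏ u ∈ W, u with hM
  have lT : 0 < Real.log T := Real.log_pos (by exact_mod_cast (by omega : 1 < T))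
  have lT1 : 1 ≤ Real.log T := by
    rw [Real.le_log_iff_exp_le (by exact_mod_cast (by omega : 0 < T))]
    have h1 := Real.exp_one_lt_d9
    have h2 : (3 : ℝ) ≤ T := by exact_mod_cast hT
    linarith
  obtain ⟨σ, hσd⟩ : ∃ σ : ℝ, σ = 1 + 1 / Real.log T := ⟨_, rfl⟩
  have hσ : 1 < σ := by
    rw [hσd]
    have : 0 < 1 / Real.log T := by positivity
    linarith
  obtain ⟨Q, hQd⟩ : ∃ Q : Finset ℕ, Q = (range (T + 1)).filter
    (fun p => Sp P p ∧ p ∉ W ∧ ∑ u ∈ W, nr p u = 0) := ⟨_, rfl⟩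
  have hQ : ∀ p ∈ Q, Sp P p ∧ p ∉ W ∧ ∑ u ∈ W, nr p u = 0 := by
    intro p hp'
    rw [hQd, mem_filter] at hp'
    exact hp'.2
  have hmain := main_le (ccM c M) (univ : Finset (Option ι)) (fun i _ n => cc_val hR M i n) σ hσ Q
    (fun p h => (hQ p h).1.1) (fun i _ p h => cc_one hO hR W hp p (hQ p h).1 (hQ p h).2.1
      (hQ p h).2.2 i)
  -- the product of the values
  have hlM : 0 ≤ Real.log (M : ℝ) := Real.log_natCast_nonneg _
  have hcard : (univ : Finset (Option ι)).card = m + 1 := by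
    rw [card_univ, Fintype.card_option]
  have hprod : ∏ V ∈ (univ : Finset (Option ι)).powerset,
      ∑' n : ℕ, (∏ i ∈ V, ccM c M i) n * (n : ℝ) ^ (-σ) ≤
      (2 * Real.log T) * K ^ (2 ^ (m + 1)) * (1 + Real.log (M : ℝ)) ^ (2 ^ m) := by
    have h1 : ∏ V ∈ (univ : Finset (Option ι)).powerset,
        ∑' n : ℕ, (∏ i ∈ V, ccM c M i) n * (n : ℝ) ^ (-σ) ≤
        ∏ V ∈ (univ : Finset (Option ι)).powerset, ((if V = ∅ then 2 * Real.log T else 1) *
          (K * (if none ∈ V then 1 + Real.log (M : ℝ) else 1))) := by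
      refine prod_le_prod (fun V hV => hmain.2 V hV) fun V _ => ?_
      by_cases hVe : V = ∅
      · rw [if_pos hVe, hVe]
        have e : ∑' n : ℕ, (∏ i ∈ (∅ : Finset (Option ι)), ccM c M i) n * (n : ℝ) ^ (-σ) =
            ∑' n : ℕ, (1 : ℝ) * (n : ℝ) ^ (-σ) := by
          refine tsum_congr fun n => ?_
          rw [prod_empty]
          rfl
        rw [e, if_neg (notMem_empty _), mul_one]
        refine (zeta_le σ hσ).trans ?_
        have e2 : 1 / (σ - 1) = Real.log T := by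
          rw [hσd]
          field_simp
          ring
        rw [e2]
        nlinarith
      · rw [if_neg hVe, one_mul]
        exact L_le hO hR W hW hp V (nonempty_iff_ne_empty.2 hVe) σ hσ
    refine h1.trans (le_of_eq ?_)
    rw [prod_mul_distrib, prod_mul_distrib, prod_const, card_powerset, hcard]
    have c1 : ∏ V ∈ (univ : Finset (Option ι)).powerset,
        (if V = ∅ then 2 * Real.log T else 1) = 2 * Real.log T := by
      rw [prod_ite_eq' (s := (univ : Finset (Option ι)).powerset) (a := ∅)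
        (b := fun _ => 2 * Real.log T)]
      simp
    have c2 : ∏ V ∈ (univ : Finset (Option ι)).powerset,
        (if none ∈ V then 1 + Real.log (M : ℝ) else 1) = (1 + Real.log (M : ℝ)) ^ (2 ^ m) := by
      rw [← prod_filter, prod_const]
      congr 1
      have e3 : ((univ : Finset (Option ι)).powerset.filter fun V => none ∈ V) =
          ((univ : Finset ι).powerset.image fun V => insert none (V.map Function.Embedding.some)) := by
        ext V
        simp only [mem_filter, mem_powerset, mem_image, subset_univ, true_and]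
        constructor
        · intro h
          refine ⟨univ.filter fun i => some i ∈ V, ?_⟩
          ext j
          cases j with
          | none => simp [h]
          | some j => simp
        · rintro ⟨V', rfl⟩
          exact mem_insert_self _ _
      rw [e3, card_image_of_injOn, card_powerset, card_univ]
      intro V _ V' _ h
      ext i
      have h2 : some i ∈ insert none (V.map Function.Embedding.some) ↔
          some i ∈ insert none (V'.map Function.Embedding.some) := by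
        simp only at h
        rw [h]
      simpa using h2
    rw [c1, c2]
    ring
  have hbig := hmain.1.trans hprod
  rw [hcard] at hbig
  -- the sum
  have hx : ∀ p ∈ Q, 0 < (p : ℝ) ^ (-σ) ∧ (p : ℝ) ^ (-σ) < 1 := fun p h =>
    pow_small p (hQ p h).1.1.two_le σ hσ
  have hsum : ∑ S ∈ HD P W T, (1 : ℝ) / ((∏ p ∈ S, p : ℕ) : ℝ) ≤
      3 * ∏ p ∈ Q, (1 - (p : ℝ) ^ (-σ))⁻¹ := by
    have s1 : ∑ S ∈ HD P W T, (1 : ℝ) / ((∏ p ∈ S, p : ℕ) : ℝ) ≤
        ∑ S ∈ Q.powerset, 3 * ∏ p ∈ S, (p : ℝ) ^ (-σ) := by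
      have hsub : HD P W T ⊆ Q.powerset := by
        intro S hS
        unfold HD at hS
        rw [mem_filter, mem_powerset] at hS
        rw [mem_powerset]
        intro p hpS
        rw [hQd, mem_filter]
        exact ⟨hS.1 hpS, hS.2.1 p hpS⟩
      refine le_trans (sum_le_sum fun S hS => ?_) (sum_le_sum_of_subset_of_nonneg hsub
        fun S hS _ => ?_)
      · have hSP := hsub hS
        rw [mem_powerset] at hSP
        unfold HD at hS
        rw [mem_filter] at hS
        have hle := hS.2.2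
        have hpos : 0 < ∏ p ∈ S, p := prod_pos fun p h => (hQ p (hSP h)).1.1.pos
        have e : ∏ p ∈ S, (p : ℝ) ^ (-σ) = ((∏ p ∈ S, p : ℕ) : ℝ) ^ (-σ) := by
          rw [Nat.cast_prod, Real.finsetProd_rpow]
          intro p _
          exact Nat.cast_nonneg p
        rw [e]
        generalize ∏ p ∈ S, p = N at hle hpos ⊢
        have hN : (0 : ℝ) < (N : ℝ) := by exact_mod_cast hpos
        have hNT : (N : ℝ) ≤ (T : ℝ) := by exact_mod_cast hle
        have hN1 : (1 : ℝ) ≤ (N : ℝ) := by exact_mod_cast hpos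
        have h2 : (N : ℝ) ^ (σ - 1) ≤ 3 := by
          have a1 : (N : ℝ) ^ (σ - 1) = Real.exp (Real.log N * (σ - 1)) :=
            Real.rpow_def_of_pos hN _
          have a2 : Real.log N * (σ - 1) ≤ 1 := by
            have a3 : σ - 1 = 1 / Real.log T := by rw [hσd]; ring
            rw [a3, mul_one_div, div_le_one lT]
            exact Real.log_le_log hN hNT
          rw [a1]
          exact (Real.exp_le_exp.2 a2).trans (Real.exp_one_lt_d9.le.trans (by norm_num))
        have h3 : (N : ℝ) ^ (σ - 1) * (N : ℝ) ^ (-σ) = 1 / N := by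
          rw [← Real.rpow_add hN]
          have : σ - 1 + -σ = -1 := by ring
          rw [this, Real.rpow_neg_one, one_div]
        rw [← h3]
        exact mul_le_mul_of_nonneg_right h2 (Real.rpow_nonneg hN.le _)
      · refine mul_nonneg (by norm_num) (prod_nonneg fun p _ => Real.rpow_nonneg (Nat.cast_nonneg _) _)
    refine s1.trans ?_
    rw [← mul_sum, ← prod_one_add]
    refine mul_le_mul_of_nonneg_left (prod_le_prod (fun p h => ?_) fun p h => ?_) (by norm_num)
    · have := (hx p h).1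
      positivity
    · obtain ⟨a1, a2⟩ := hx p h
      rw [← one_div, le_div_iff₀ (by linarith)]
      nlinarith
  have hx1 : ∀ p ∈ Q, (0 : ℝ) ≤ (1 - (p : ℝ) ^ (-σ))⁻¹ := fun p h => by
    have := (hx p h).2
    exact inv_nonneg.2 (by linarith)
  have hQ0 : 0 ≤ ∏ p ∈ Q, (1 - (p : ℝ) ^ (-σ))⁻¹ := prod_nonneg hx1
  generalize ∏ p ∈ Q, (1 - (p : ℝ) ^ (-σ))⁻¹ = Z at hbig hsum hQ0
  have hH0 : 0 ≤ ∑ S ∈ HD P W T, (1 : ℝ) / ((∏ p ∈ S, p : ℕ) : ℝ) :=
    sum_nonneg fun S _ => by positivity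
  generalize ∑ S ∈ HD P W T, (1 : ℝ) / ((∏ p ∈ S, p : ℕ) : ℝ) = H at hsum hH0 ⊢
  generalize Real.log (M : ℝ) = Y at hbig hlM ⊢
  have hY0 : 0 ≤ 1 + Y := by linarith
  apply le_of_pow_le_pow_left₀ (n := 2 ^ (m + 1)) (by positivity) (by positivity)
  have e1 : (6 * K * (1 + Y) ^ (1 / 2 : ℝ) * Real.log T ^ (1 / 2 ^ (m + 1) : ℝ)) ^ (2 ^ (m + 1)) =
      (6 * K) ^ (2 ^ (m + 1)) * (1 + Y) ^ (2 ^ m) * Real.log T := by
    rw [mul_pow, mul_pow _ ((1 + Y) ^ (1 / 2 : ℝ)), ← Real.rpow_natCast ((1 + Y) ^ (1 / 2 : ℝ)),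
      ← Real.rpow_mul hY0,
      ← Real.rpow_natCast (Real.log T ^ (1 / 2 ^ (m + 1) : ℝ)), ← Real.rpow_mul lT.le]
    have e2 : (1 + Y) ^ ((1 / 2 : ℝ) * ((2 ^ (m + 1) : ℕ) : ℝ)) = (1 + Y) ^ (2 ^ m) := by
      rw [← Real.rpow_natCast (1 + Y) (2 ^ m)]
      congr 1
      push_cast
      ring
    have e3 : (1 / 2 ^ (m + 1) : ℝ) * ((2 ^ (m + 1) : ℕ) : ℝ) = 1 := by
      push_cast
      field_simp
    rw [e2, e3, Real.rpow_one]
  rw [e1]
  have hpw2 : (2 : ℝ) ≤ 2 ^ (2 ^ (m + 1)) := by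
    calc (2 : ℝ) = 2 ^ 1 := by norm_num
      _ ≤ 2 ^ (2 ^ (m + 1)) := pow_le_pow_right₀ (by norm_num) (Nat.one_le_two_pow)
  calc H ^ (2 ^ (m + 1)) ≤ (3 * Z) ^ (2 ^ (m + 1)) := pow_le_pow_left₀ hH0 hsum _
    _ = 3 ^ (2 ^ (m + 1)) * Z ^ (2 ^ (m + 1)) := by rw [mul_pow]
    _ ≤ 3 ^ (2 ^ (m + 1)) * ((2 * Real.log T) * K ^ (2 ^ (m + 1)) * (1 + Y) ^ (2 ^ m)) :=
        mul_le_mul_of_nonneg_left hbig (by positivity)
    _ = 2 * (3 ^ (2 ^ (m + 1)) * K ^ (2 ^ (m + 1)) * (1 + Y) ^ (2 ^ m) * Real.log T) := by ring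
    _ ≤ 2 ^ (2 ^ (m + 1)) * (3 ^ (2 ^ (m + 1)) * K ^ (2 ^ (m + 1)) * (1 + Y) ^ (2 ^ m) *
          Real.log T) := mul_le_mul_of_nonneg_right hpw2 (by positivity)
    _ = (6 * K) ^ (2 ^ (m + 1)) * (1 + Y) ^ (2 ^ m) * Real.log T := by
        rw [show (6 : ℝ) * K = 2 * 3 * K by ring, mul_pow, mul_pow]
        ring

end

end Pool.Agent.X99.GQ.Ha
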