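import Mathlib
import Pool.Agent.X99.GQ.Asy
import Pool.Agent.X99.GQ.Bas
import Pool.Agent.X99.GQ.Box
import Pool.Agent.X99.GQ.Key
import Pool.Agent.X99.GQ.Cnt
import Pool.Agent.X99.GQ.Ns
import Pool.Agent.X99.GQ.Low
import Pool.Agent.X99.GQ.Few
import Pool.Agent.X99.GQ.Bad
import Pool.Agent.X99.GQ.Hal
import Pool.Agent.Y356.CQ.EQ
import Pool.Agent.Y839.CQ.SYM
import Pool.Agent.Y948.CQ.C2
import Pool.Agent.Y219.CQ.LA
import Pool.Agent.Y488.CX.Sie

/-!
# The exact proportion of the nonsingular matrices of quadratic symbols, arbitrary classes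
-/

set_option autoImplicit false

namespace Pool.Agent.X99.GQ

/-- **the exact proportion**: `h` is the exponent of the split primes with a quadratic condition -/
theorem DEN {P : Par} (hO : Ok P) {h : ℝ} (hh0 : 0 ≤ h) (hH : HAL P h) (hh : h < al P) :
    S_DEN P := by
  have hal := Lo.al_pos hO
  have hbe := Lo.be_pos hO
  obtain ⟨η, hη⟩ : ∃ η : ℝ, η = min (min (al P / 4) (be P / 2)) ((al P - h) / 2) := ⟨_, rfl⟩
  have h0 : 0 < η := by
    rw [hη]
    exact lt_min (lt_min (by linarith) (by linarith)) (by linarith)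
  have h1 : η ≤ al P / 4 := by
    rw [hη]
    exact (min_le_left _ _).trans (min_le_left _ _)
  have h2 : η ≤ be P / 2 := by
    rw [hη]
    exact (min_le_left _ _).trans (min_le_right _ _)
  have h3 : η ≤ (al P - h) / 2 := by
    rw [hη]
    exact min_le_right _ _
  exact Pool.Agent.X99.GQ.t_NS (As.t_DQ hO (h := h) (η := η) t_BIL Pool.Agent.Y356.CQ.t_EQ
    (Pool.Agent.Y219.CQ.t_LA Pool.Agent.Y839.CQ.t_SYM Pool.Agent.Y948.CQ.t_C2)
    (t_BOX hO) (t_KEY hO) Cn.t_CNT Pool.Agent.Y488.CX.t_SIE h0 (by linarith)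
    (Bd.t_BAD hO (t_MER hO) hh0 hH (by linarith)) (Fw.t_FEW hO (t_MER hO) h0 h1 (by linarith))
    (Lo.t_LOW hO) Pool.Agent.Y948.CQ.t_C2)

end Pool.Agent.X99.GQ
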